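import Pool.Agent.Helper57.MT.Goals
import Pool.Agent.Helper27.LG.BG

/-!
# Packet MC2-ZA2: `ZZ` in progressions, with the right density
-/

set_option autoImplicit false

open Finset Filter Topology

open scoped Classical

namespace Pool.Agent.Helper76.MT

open Pool.Agent.Helper23.MC (ZZ)
open Pool.Agent.Helper57.MT (StmtTT StmtZA2)

/-- the primes `p > w` with `m p ≤ Y`, `m p ≡ h' (e)` -/
noncomputable def PP (Y w e h' m : ℕ) : Finset ℕ :=
  (Icc 1 (Y / m)).filter (fun p => p.Prime ∧ w < p ∧ m * p ≡ h' [MOD e])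

lemma card_dvd (Y p : ℕ) : ((Icc 1 Y).filter (fun h => p ∣ h)).card = Y / p := by
  rw [← Nat.Ioc_filter_dvd_card_eq_div Y p]
  rfl

/-- the multiples of the elements of `Bd` -/
lemma card_bd {Y t : ℕ} (ht : 0 < t) (Bd : Finset ℕ) (hBd : ∀ p ∈ Bd, t < p) :
    ((Bd.biUnion (fun p => (Icc 1 Y).filter (fun h => p ∣ h))).card : ℝ) ≤ Bd.card * ((Y : ℝ) / t) := by
  have ht0 : (0 : ℝ) < t := by exact_mod_cast ht
  have h1 : ((Bd.biUnion (fun p => (Icc 1 Y).filter (fun h => p ∣ h))).card : ℝ) ≤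
      ∑ p ∈ Bd, (((Icc 1 Y).filter (fun h => p ∣ h)).card : ℝ) := by
    exact_mod_cast Finset.card_biUnion_le
  refine h1.trans ?_
  rw [← nsmul_eq_mul, ← Finset.sum_const]
  apply Finset.sum_le_sum
  intro p hp
  rw [card_dvd]
  have hp0 : (t : ℝ) ≤ p := by exact_mod_cast (hBd p hp).le
  exact (Nat.cast_div_le).trans (div_le_div_of_nonneg_left (by positivity) ht0 hp0)

/-- The number of the primes for one `m`. -/
lemma card_PP {C : ℝ} (hC : 0 < C)
    (hBG : ∀ d b N : ℕ, 1 ≤ d → 2 ≤ N → Nat.Coprime b d →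
      (((Icc 1 N).filter (fun t => (d * t + b).Prime)).card : ℝ)
        ≤ C * (N / Real.log N) * (d / (Nat.totient d : ℝ)))
    {Y w h' g e1 m' : ℕ} (hw : 2 ≤ w) (hg : 0 < g) (he1 : 0 < e1) (hm' : 0 < m')
    (hcop : Nat.Coprime m' e1) (he1w : e1 ≤ w)
    (hbig : ∀ N : ℕ, (w : ℝ) / e1 < N + 1 → 2 ≤ N ∧ Real.log w / 2 ≤ Real.log N) :
    ((PP Y w (g * e1) h' (g * m')).card : ℝ) ≤
      2 * C * (Y / (g * (Nat.totient e1 : ℝ) * Real.log w)) * (1 / (m' : ℝ)) := by
  have hlw : 0 < Real.log w := Real.log_pos (by exact_mod_cast (by omega : 1 < w))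
  have hphi : (0 : ℝ) < Nat.totient e1 := by exact_mod_cast Nat.totient_pos.2 he1
  have hg0 : (0 : ℝ) < g := by exact_mod_cast hg
  have he0 : (0 : ℝ) < e1 := by exact_mod_cast he1
  have hm0 : (0 : ℝ) < m' := by exact_mod_cast hm'
  rcases Finset.eq_empty_or_nonempty (PP Y w (g * e1) h' (g * m')) with h0 | ⟨q, hq⟩
  · rw [h0, Finset.card_empty, Nat.cast_zero]
    positivity
  · obtain ⟨hq1, hqp, hqw, hqm⟩ := Finset.mem_filter.1 hq
    set m := g * m' with hm
    have hmpos : 0 < m := Nat.mul_pos hg hm'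
    set N := Y / m / e1 with hN
    have hcong : ∀ p ∈ PP Y w (g * e1) h' m, p % e1 = q % e1 := by
      intro p hp
      obtain ⟨hp1, hpp, hpw, hpm⟩ := Finset.mem_filter.1 hp
      have h1 : m * p ≡ m * q [MOD g * e1] := hpm.trans hqm.symm
      rw [hm, mul_assoc, mul_assoc] at h1
      have h2 : m' * p ≡ m' * q [MOD e1] := Nat.ModEq.mul_left_cancel' hg.ne' h1
      exact Nat.ModEq.cancel_left_of_coprime (by rw [Nat.gcd_comm]; exact hcop) h2
    have hqe : Nat.Coprime (q % e1) e1 := by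
      have h1 : Nat.Coprime q e1 := by
        rw [Nat.Prime.coprime_iff_not_dvd hqp]
        intro h
        have := Nat.le_of_dvd he1 h
        omega
      have h2 := (Nat.mod_modEq q e1).gcd_eq
      unfold Nat.Coprime at h1 ⊢
      rw [h2, h1]
    -- the size of `N`
    have hYm : w < Y / m := lt_of_lt_of_le hqw (Finset.mem_Icc.1 hq1).2
    have hN1 : (w : ℝ) / e1 < N + 1 := by
      rw [div_lt_iff₀ he0]
      have h1 : Y / m < (N + 1) * e1 := by
        rw [hN]
        have := Nat.lt_div_mul_add (a := Y / m) he1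
        nlinarith
      have h2 : w < (N + 1) * e1 := hYm.trans h1
      exact_mod_cast h2
    obtain ⟨hN2, hNlog⟩ := hbig N hN1
    have hsub : (PP Y w (g * e1) h' m).card ≤
        ((Icc 1 N).filter (fun t => (e1 * t + q % e1).Prime)).card := by
      apply Finset.card_le_card_of_injOn (fun p => p / e1)
      · intro p hp
        have hp' := hp
        obtain ⟨hp1, hpp, hpw, hpm⟩ := Finset.mem_filter.1 hp'
        have h1 := hcong p hp
        refine Finset.mem_coe.2 (Finset.mem_filter.2 ⟨Finset.mem_Icc.2 ⟨?_, ?_⟩, ?_⟩)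
        · exact Nat.div_pos (by omega) he1
        · exact Nat.div_le_div_right (Finset.mem_Icc.1 hp1).2
        · rw [← h1, Nat.div_add_mod]
          exact hpp
      · intro p hp p' hp' hpp'
        have h1 := hcong p hp
        have h2 := hcong p' hp'
        simp only at hpp'
        rw [← Nat.div_add_mod p e1, ← Nat.div_add_mod p' e1, hpp', h1, h2]
    have h1 := hBG e1 (q % e1) N he1 hN2 hqe
    have h2 : ((PP Y w (g * e1) h' m).card : ℝ) ≤
        C * (N / Real.log N) * (e1 / (Nat.totient e1 : ℝ)) :=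
      le_trans (by exact_mod_cast hsub) h1
    refine h2.trans ?_
    have h3 : (N : ℝ) ≤ Y / (g * m' * e1) := by
      have h4 : (N : ℝ) ≤ ((Y / m : ℕ) : ℝ) / e1 := Nat.cast_div_le
      have h5 : ((Y / m : ℕ) : ℝ) ≤ (Y : ℝ) / m := Nat.cast_div_le
      calc (N : ℝ) ≤ ((Y / m : ℕ) : ℝ) / e1 := h4
        _ ≤ ((Y : ℝ) / m) / e1 := div_le_div_of_nonneg_right h5 he0.le
        _ = Y / (g * m' * e1) := by
            rw [hm]
            push_cast
            rw [div_div]
    have h6 : (N : ℝ) / Real.log N ≤ Y / (g * m' * e1) / (Real.log w / 2) := by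
      apply div_le_div₀ (by positivity) h3 (by positivity) hNlog
    calc C * (N / Real.log N) * (e1 / (Nat.totient e1 : ℝ))
        ≤ C * (Y / (g * m' * e1) / (Real.log w / 2)) * (e1 / (Nat.totient e1 : ℝ)) := by
          apply mul_le_mul_of_nonneg_right _ (by positivity)
          exact mul_le_mul_of_nonneg_left h6 hC.le
      _ = 2 * C * (Y / (g * (Nat.totient e1 : ℝ) * Real.log w)) * (1 / (m' : ℝ)) := by
          field_simp

/-- the decomposition -/
lemma sub_union {Y w t e h' : ℕ} {Bd : Finset ℕ} (hw : 0 < w) (he : 0 < e) (hew : e ≤ w)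
    {X : ℕ} (hX : Y / w ≤ X) :
    (ZZ Y t w Bd).filter (fun h => h ≡ h' [MOD e]) ⊆
      ((((Icc 1 X).filter (fun m' => Nat.Coprime m' (e / Nat.gcd h' e))).biUnion
          (fun m' => (PP Y w e h' (Nat.gcd h' e * m')).image
            (fun p => Nat.gcd h' e * m' * p))) ∪
        (Icc 1 Y).filter (fun h : ℕ => ∀ p, p.Prime → p ∣ h → p ≤ t)) ∪
      (Bd.biUnion (fun p => (Icc 1 Y).filter (fun h => p ∣ h))) := by
  intro h hh
  obtain ⟨hZ, hcong⟩ := Finset.mem_filter.1 hh
  obtain ⟨hIcc, hZ⟩ := Finset.mem_filter.1 hZ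
  by_cases h1 : ∃ p ∈ Bd, p ∣ h
  · obtain ⟨p, hp, hph⟩ := h1
    exact Finset.mem_union_right _ (Finset.mem_biUnion.2
      ⟨p, hp, Finset.mem_filter.2 ⟨hIcc, hph⟩⟩)
  apply Finset.mem_union_left
  by_cases h2 : ∀ p, p.Prime → p ∣ h → p ≤ t
  · exact Finset.mem_union_right _ (Finset.mem_filter.2 ⟨hIcc, h2⟩)
  apply Finset.mem_union_left
  push Not at h2
  obtain ⟨p, hp, hph, hpt⟩ := h2
  have hpw : w < p := by
    by_contra hcon
    exact hZ p hp hpt (not_lt.1 hcon) (fun hB => h1 ⟨p, hB, hph⟩) hph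
  have hIcc' := Finset.mem_Icc.1 hIcc
  obtain ⟨m, hm⟩ := hph
  have hmp : m * p = h := by rw [hm, mul_comm]
  have hm0 : 0 < m := by
    rcases Nat.eq_zero_or_pos m with h0 | h0
    · rw [h0] at hmp
      omega
    · exact h0
  have hpe : Nat.Coprime p e := by
    rw [Nat.Prime.coprime_iff_not_dvd hp]
    intro hd
    have := Nat.le_of_dvd he hd
    omega
  have hgcd : Nat.gcd m e = Nat.gcd h' e := by
    rw [← hcong.gcd_eq, ← hmp, Nat.Coprime.gcd_mul_right_cancel m hpe]
  set g := Nat.gcd h' e with hg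
  have hgpos : 0 < g := Nat.gcd_pos_of_pos_right _ he
  obtain ⟨m', hm'⟩ : g ∣ m := hgcd ▸ Nat.gcd_dvd_left m e
  have hm'0 : 0 < m' := by
    rcases Nat.eq_zero_or_pos m' with h0 | h0
    · rw [h0] at hm'
      omega
    · exact h0
  have hmX : m ≤ X := by
    refine le_trans ?_ hX
    rw [Nat.le_div_iff_mul_le hw]
    calc m * w ≤ m * p := Nat.mul_le_mul_left _ hpw.le
      _ = h := hmp
      _ ≤ Y := hIcc'.2
  refine Finset.mem_biUnion.2 ⟨m', Finset.mem_filter.2 ⟨Finset.mem_Icc.2 ⟨hm'0, ?_⟩, ?_⟩,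
    Finset.mem_image.2 ⟨p, ?_, ?_⟩⟩
  · calc m' ≤ g * m' := Nat.le_mul_of_pos_left _ hgpos
      _ = m := hm'.symm
      _ ≤ X := hmX
  · have h3 := Nat.coprime_div_gcd_div_gcd (m := m) (n := e) (by rw [hgcd]; exact hgpos)
    rw [hgcd] at h3
    have h4 : m / g = m' := by
      rw [hm']
      exact Nat.mul_div_cancel_left _ hgpos
    rwa [h4] at h3
  · rw [← hm']
    refine Finset.mem_filter.2 ⟨Finset.mem_Icc.2 ⟨hp.one_le, ?_⟩, hp, hpw, ?_⟩
    · rw [Nat.le_div_iff_mul_le hm0, mul_comm, hmp]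
      exact hIcc'.2
    · rw [hmp]
      exact hcong
  · rw [← hm', hmp]

/-- sizes -/
lemma ev_size : ∀ᶠ w : ℕ in atTop, 2 ≤ w ∧ 1 ≤ Real.log (Real.log w) ∧
    Real.log w ^ 3 ≤ w ∧ Real.log w ^ 3 ≤ (⌊Real.log w ^ 4⌋₊ : ℝ) ∧
    2 ≤ ⌊Real.log w ^ 4⌋₊ ∧
    (√(w : ℝ) + 2) * Real.log w ^ 3 ≤ w := by
  have t1 : Tendsto (fun w : ℕ => (w : ℝ)) atTop atTop := tendsto_natCast_atTop_atTop
  have t2 : Tendsto (fun w : ℕ => Real.log (w : ℝ)) atTop atTop := Real.tendsto_log_atTop.comp t1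
  have t3 : Tendsto (fun w : ℕ => Real.log (Real.log (w : ℝ))) atTop atTop :=
    Real.tendsto_log_atTop.comp t2
  have e1 : ∀ᶠ u : ℝ in atTop, u ^ 6 * Real.exp (-u) < 1 / 16 :=
    (Real.tendsto_pow_mul_exp_neg_atTop_nhds_zero 6).eventually (gt_mem_nhds (by positivity))
  filter_upwards [eventually_ge_atTop 2, t3.eventually_ge_atTop 1, t2.eventually e1,
    t2.eventually_ge_atTop 2, t1.eventually_ge_atTop 16] with w h1 h2 h3 h4 h5
  have hw0 : (0 : ℝ) < w := by linarith
  set L := Real.log (w : ℝ) with hL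
  have hexp : Real.exp L = w := Real.exp_log hw0
  have h6 : 16 * L ^ 6 ≤ w := by
    rw [Real.exp_neg, ← div_eq_mul_inv, div_lt_iff₀ (Real.exp_pos _), hexp] at h3
    linarith
  have hsq : (4 * L ^ 3) ^ 2 ≤ (w : ℝ) := by
    have h61 : (4 * L ^ 3) ^ 2 = 16 * L ^ 6 := by ring
    rw [h61]
    exact h6
  have h7 : 4 * L ^ 3 ≤ √(w : ℝ) := Real.le_sqrt_of_sq_le hsq
  have h8 : 4 ≤ √(w : ℝ) := by
    apply Real.le_sqrt_of_sq_le
    linarith
  have h9 : √(w : ℝ) * √(w : ℝ) = w := Real.mul_self_sqrt hw0.le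
  have hL3 : 8 ≤ L ^ 3 := by
    calc (8 : ℝ) = 2 ^ 3 := by norm_num
      _ ≤ L ^ 3 := pow_le_pow_left₀ (by norm_num) h4 3
  have hL4 : L ^ 3 + 1 ≤ L ^ 4 := by
    have : L ^ 4 = L * L ^ 3 := by ring
    nlinarith
  have hfl : L ^ 3 ≤ (⌊L ^ 4⌋₊ : ℝ) := by
    have := Nat.lt_floor_add_one (L ^ 4)
    linarith
  refine ⟨h1, h2, ?_, hfl, ?_, ?_⟩
  · nlinarith
  · have : (2 : ℝ) ≤ (⌊L ^ 4⌋₊ : ℝ) := by linarith
    exact_mod_cast this
  · nlinarith

theorem za2 (hTT : StmtTT) : StmtZA2 := by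
  obtain ⟨C, hC, hBG⟩ := Pool.Agent.Helper27.LG.bg
  obtain ⟨C', hC', hTT⟩ := hTT
  obtain ⟨w0, hw0⟩ := eventually_atTop.1 ev_size
  refine ⟨max 1 (8 * C * C'), le_max_left _ _, w0, ?_⟩
  intro w Y t e h' hw hwY hY ht htw hsf he Bd hBd
  obtain ⟨h1, h2, h3, h4, h5, h6⟩ := hw0 w hw
  have he0 : 0 < e := Nat.pos_of_ne_zero hsf.ne_zero
  have hlw : 0 < Real.log w := Real.log_pos (by exact_mod_cast (by omega : 1 < w))
  have hw00 : (0 : ℝ) < w := by exact_mod_cast (by omega : 0 < w)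
  have hew : e ≤ w := by
    have : (e : ℝ) ≤ w := he.trans h3
    exact_mod_cast this
  set X := ⌊Real.log w ^ 4⌋₊ with hX
  have hYX : Y / w ≤ X := by
    apply Nat.le_floor
    refine Nat.cast_div_le.trans ?_
    rw [div_le_iff₀ hw00, mul_comm]
    exact hY
  have hsub := sub_union (t := t) (h' := h') (Bd := Bd) (by omega : 0 < w) he0 hew hYX
  set g := Nat.gcd h' e with hg
  have hgpos : 0 < g := Nat.gcd_pos_of_pos_right _ he0
  obtain ⟨e1, he1⟩ : g ∣ e := Nat.gcd_dvd_right h' e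
  have he1' : e / g = e1 := by
    rw [he1]
    exact Nat.mul_div_cancel_left _ hgpos
  have he10 : 0 < e1 := by
    rcases Nat.eq_zero_or_pos e1 with h0 | h0
    · rw [h0] at he1
      omega
    · exact h0
  have he1e : e1 ≤ e := by
    rw [he1]
    exact Nat.le_mul_of_pos_left _ hgpos
  rw [he1'] at hsub
  set A := (Icc 1 X).filter (fun m' => Nat.Coprime m' e1) with hA
  have hcard := Finset.card_le_card hsub
  have hbig : ∀ N : ℕ, (w : ℝ) / e1 < N + 1 → 2 ≤ N ∧ Real.log w / 2 ≤ Real.log N := by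
    intro N hN
    have he1r : (0 : ℝ) < e1 := by exact_mod_cast he10
    have h7 : (e1 : ℝ) ≤ Real.log w ^ 3 := le_trans (by exact_mod_cast he1e) he
    have h8 : (√(w : ℝ) + 2) ≤ w / e1 := by
      rw [le_div_iff₀ he1r]
      refine le_trans ?_ h6
      exact mul_le_mul_of_nonneg_left h7 (by positivity)
    have h9 : √(w : ℝ) + 1 ≤ N := by linarith
    have h10 : 1 ≤ √(w : ℝ) := by
      rw [Real.one_le_sqrt]
      exact_mod_cast (by omega : 1 ≤ w)
    refine ⟨?_, ?_⟩
    · have : (2 : ℝ) ≤ N := by linarith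
      exact_mod_cast this
    · rw [← Real.log_sqrt hw00.le]
      exact Real.log_le_log (by linarith) (by linarith)
  have hphi : (0 : ℝ) < Nat.totient e1 := by exact_mod_cast Nat.totient_pos.2 he10
  have hg0 : (0 : ℝ) < g := by exact_mod_cast hgpos
  have he1r : (0 : ℝ) < e1 := by exact_mod_cast he10
  have hAcard : ((A.biUnion (fun m' => (PP Y w e h' (g * m')).image
      (fun p => g * m' * p))).card : ℝ) ≤
      max 1 (8 * C * C') * (Y * Real.log (Real.log w) / (e * Real.log w)) := by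
    have a1 : ((A.biUnion (fun m' => (PP Y w e h' (g * m')).image
        (fun p => g * m' * p))).card : ℝ) ≤ ∑ m' ∈ A, ((PP Y w e h' (g * m')).card : ℝ) := by
      have := Finset.card_biUnion_le (s := A) (t := fun m' => (PP Y w e h' (g * m')).image
        (fun p => g * m' * p))
      have a2 : ∑ m' ∈ A, ((PP Y w e h' (g * m')).image (fun p => g * m' * p)).card ≤
          ∑ m' ∈ A, (PP Y w e h' (g * m')).card :=
        Finset.sum_le_sum fun m' _ => Finset.card_image_le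
      exact_mod_cast this.trans a2
    have a2 : ∑ m' ∈ A, ((PP Y w e h' (g * m')).card : ℝ) ≤
        ∑ m' ∈ A, 2 * C * (Y / (g * (Nat.totient e1 : ℝ) * Real.log w)) * (1 / (m' : ℝ)) := by
      apply Finset.sum_le_sum
      intro m' hm'
      obtain ⟨b1, b2⟩ := Finset.mem_filter.1 hm'
      rw [he1]
      exact card_PP hC hBG h1 hgpos he10 (Finset.mem_Icc.1 b1).1 b2 (he1e.trans hew) hbig
    rw [← Finset.mul_sum] at a2
    have a3 := hTT X e1 h5 he10 (by
      have : (e1 : ℝ) ≤ X := le_trans (by exact_mod_cast he1e) (he.trans h4)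
      exact_mod_cast this)
    have a4 : Real.log X ≤ 4 * Real.log (Real.log w) := by
      have hX0 : (0 : ℝ) < X := by exact_mod_cast (by omega : 0 < X)
      have : (X : ℝ) ≤ Real.log w ^ 4 := Nat.floor_le (by positivity)
      have h7 := Real.log_le_log hX0 this
      rw [Real.log_pow] at h7
      exact_mod_cast h7
    have a5 : ∑ m' ∈ A, 1 / (m' : ℝ) ≤
        C' * ((Nat.totient e1 : ℝ) / e1) * (4 * Real.log (Real.log w)) :=
      a3.trans (mul_le_mul_of_nonneg_left a4 (by positivity))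
    refine (a1.trans a2).trans ?_
    calc 2 * C * (Y / (g * (Nat.totient e1 : ℝ) * Real.log w)) * ∑ m' ∈ A, 1 / (m' : ℝ)
        ≤ 2 * C * (Y / (g * (Nat.totient e1 : ℝ) * Real.log w)) *
          (C' * ((Nat.totient e1 : ℝ) / e1) * (4 * Real.log (Real.log w))) :=
          mul_le_mul_of_nonneg_left a5 (by positivity)
      _ = 8 * C * C' * (Y * Real.log (Real.log w) / (((g * e1 : ℕ) : ℝ) * Real.log w)) := by
          push_cast
          field_simp
          ring
      _ ≤ max 1 (8 * C * C') * (Y * Real.log (Real.log w) / (e * Real.log w)) := by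
          rw [← he1]
          apply mul_le_mul_of_nonneg_right (le_max_right _ _)
          positivity
  have hB := card_bd (Y := Y) (by omega : 0 < t) Bd hBd
  have hfin : (((ZZ Y t w Bd).filter (fun h => h ≡ h' [MOD e])).card : ℝ) ≤
      ((A.biUnion (fun m' => (PP Y w e h' (g * m')).image (fun p => g * m' * p))).card : ℝ) +
      (((Icc 1 Y).filter (fun h : ℕ => ∀ p, p.Prime → p ∣ h → p ≤ t)).card : ℝ) +
      ((Bd.biUnion (fun p => (Icc 1 Y).filter (fun h => p ∣ h))).card : ℝ) := by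
    have := (hcard.trans (Finset.card_union_le _ _)).trans
      (Nat.add_le_add_right (Finset.card_union_le _ _) _)
    exact_mod_cast this
  linarith

end Pool.Agent.Helper76.MT
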